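import Mathlib

/-!
# The gradient need not be injective on components of `Hess⁺(f)` below `scl(f)`

The polynomial `f (x, y) = s⁴ / 32 - 3 s³ / 8 + 3 s² / 2 + y² - x²`, `s = x² + y²`, satisfies (H),
has two minima on the first axis, and both lie in one component of the set where the Hessian is
positive definite and `f ≤ scl(f)`.
-/

namespace Pool.Agent.Results.MP_5c9c6a_an.NonInjectiveComponent

open Set Filter
open scoped Topology

/-- Euclidean space. -/
abbrev E (n : ℕ) := EuclideanSpace ℝ (Fin n)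

/-- Truncation at level `q`. -/
noncomputable def T {n : ℕ} (f : E n → ℝ) (q : ℝ) (x : E n) : ℝ := max q (f x)

/-- The convexity levels: `q ≥ inf f` and all truncations at levels `≥ q` are convex. -/
def levels {n : ℕ} (f : E n → ℝ) : Set ℝ :=
  {q | (⨅ x, (f x : EReal)) ≤ (q : EReal) ∧ ∀ r : ℝ, q ≤ r → ConvexOn ℝ univ (T f r)}

/-- The Hessian as a bilinear form. -/
noncomputable def hess {n : ℕ} (f : E n → ℝ) (x : E n) (v w : E n) : ℝ :=
  fderiv ℝ (fderiv ℝ f) x v w

/-- Points where the Hessian is positive definite. -/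
def HessPos {n : ℕ} (f : E n → ℝ) : Set (E n) := {x | ∀ v : E n, v ≠ 0 → 0 < hess f x v v}

/-- The critical set. -/
def Crit {n : ℕ} (f : E n → ℝ) : Set (E n) := {x | gradient f x = 0}

/-- The Hessian is nonsingular at all critical points. -/
def IsMorse {n : ℕ} (f : E n → ℝ) : Prop :=
  ∀ x ∈ Crit f, ∀ v : E n, (∀ w : E n, hess f x v w = 0) → v = 0

/-- Hypotheses (H), with `c = scl f`. -/
structure HypH {n : ℕ} (f : E n → ℝ) (c : ℝ) : Prop where
  smooth : ContDiff ℝ 2 f
  not_convex : ¬ ConvexOn ℝ univ f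
  truncated_convex : (levels f).Nonempty
  morse : IsMorse f
  crit_bounded : Bornology.IsBounded (Crit f)
  compl_hess_bounded : Bornology.IsBounded (HessPos f)ᶜ
  scl : IsGLB (levels f) c
  mem_range : c ∈ range f
  regular : ∀ x, f x = c → x ∉ Crit f
  subset_hess : {x | c < f x} ⊆ HessPos f

/-- The set `R(f)`, for `c = scl f`. -/
def R {n : ℕ} (f : E n → ℝ) (c : ℝ) : Set (E n) := HessPos f \ {x | c < f x}

/-! ### Truncations and Hessians -/

section general

variable {n : ℕ} {f : E n → ℝ}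

lemma line1 (hf : ContDiff ℝ 2 f) (z v : E n) (t : ℝ) :
    HasDerivAt (fun t : ℝ => f (z + t • v)) (fderiv ℝ f (z + t • v) v) t := by
  have h1 : HasDerivAt (fun t : ℝ => z + t • v) v t := by
    have := ((hasDerivAt_id' t).smul_const v).const_add z
    simpa using this
  have h2 : HasFDerivAt f (fderiv ℝ f (z + t • v)) (z + t • v) :=
    (hf.differentiable (by norm_num)).differentiableAt.hasFDerivAt
  exact h2.comp_hasDerivAt t h1

lemma line2 (hf : ContDiff ℝ 2 f) (z v : E n) (t : ℝ) :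
    HasDerivAt (fun t : ℝ => fderiv ℝ f (z + t • v) v) (hess f (z + t • v) v v) t := by
  have h1 : HasDerivAt (fun t : ℝ => z + t • v) v t := by
    have := ((hasDerivAt_id' t).smul_const v).const_add z
    simpa using this
  have h0 : ContDiff ℝ 1 (fderiv ℝ f) := hf.fderiv_right (m := 1) (by norm_num)
  have h2 : HasFDerivAt (fderiv ℝ f) (fderiv ℝ (fderiv ℝ f) (z + t • v)) (z + t • v) :=
    (h0.differentiable (by norm_num)).differentiableAt.hasFDerivAt
  have h3 : HasDerivAt (fun t : ℝ => fderiv ℝ f (z + t • v))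
      (fderiv ℝ (fderiv ℝ f) (z + t • v) v) t := h2.comp_hasDerivAt t h1
  have h4 := h3.clm_apply (hasDerivAt_const t v)
  simpa [hess] using h4

/-- A function that is eventually constant has zero second derivative. -/
lemma deriv2_of_eventually_const {ψ : ℝ → ℝ} {t c : ℝ} (h : ∀ᶠ s in 𝓝 t, ψ s = c) :
    deriv (deriv ψ) t = 0 := by
  have h1 : ∀ᶠ s in 𝓝 t, deriv ψ s = 0 := by
    filter_upwards [h.eventually_nhds] with s hs
    have h2 : ψ =ᶠ[𝓝 s] fun _ => c := hs
    rw [h2.deriv_eq]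
    simp
  have h3 : deriv ψ =ᶠ[𝓝 t] fun _ => (0:ℝ) := h1
  rw [h3.deriv_eq]
  simp

/-- If the Hessian is positive semidefinite where `f > r`, the truncation at `r` is convex. -/
lemma convex_T (hf : ContDiff ℝ 2 f) (r : ℝ)
    (h : ∀ x, r < f x → ∀ v, 0 ≤ hess f x v v) : ConvexOn ℝ univ (T f r) := by
  refine ⟨convex_univ, ?_⟩
  intro x _ y _ a b ha hb hab
  by_contra hcon
  push Not at hcon
  simp only [smul_eq_mul] at hcon
  set v : E n := y - x with hv
  have hxy : a • x + b • y = x + b • v := by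
    have ha' : a = 1 - b := by linarith
    rw [ha', hv]; module
  rw [hxy] at hcon
  set L : ℝ → ℝ := fun t => (1 - t) * T f r x + t * T f r y with hL
  have hrx : r ≤ T f r x := le_max_left _ _
  have hry : r ≤ T f r y := le_max_left _ _
  have hLb : a * T f r x + b * T f r y = L b := by
    simp only [hL]
    have ha' : a = 1 - b := by linarith
    rw [ha']
  have hLr : ∀ t ∈ Icc (0:ℝ) 1, r ≤ L t := by
    intro t ht
    simp only [hL]
    nlinarith [ht.1, ht.2, mul_nonneg ht.1 (sub_nonneg.mpr hry),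
      mul_nonneg (sub_nonneg.mpr ht.2) (sub_nonneg.mpr hrx)]
  rw [hLb] at hcon
  have hb1 : b ≤ 1 := by linarith
  have hbL := hLr b ⟨hb, hb1⟩
  have hφb : L b < f (x + b • v) := by
    unfold T at hcon
    rcases lt_max_iff.mp hcon with h1 | h1
    · linarith
    · exact h1
  set ε : ℝ := (f (x + b • v) - L b) / 2 with hε
  have hε0 : 0 < ε := by rw [hε]; linarith
  set ψ : ℝ → ℝ := fun t => f (x + t • v) - L t + ε * (t * (t - 1)) with hψ
  have hd1 : ∀ t, HasDerivAt ψ (fderiv ℝ f (x + t • v) v - (T f r y - T f r x)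
      + ε * (2 * t - 1)) t := by
    intro t
    have e1 : HasDerivAt L (T f r y - T f r x) t := by
      have := (((hasDerivAt_id' t).const_sub 1).mul_const (T f r x)).fun_add
        ((hasDerivAt_id' t).mul_const (T f r y))
      refine this.congr_deriv ?_
      ring
    have e2 : HasDerivAt (fun t : ℝ => ε * (t * (t - 1))) (ε * (2 * t - 1)) t := by
      have := ((hasDerivAt_id' t).fun_mul ((hasDerivAt_id' t).sub_const 1)).const_mul ε
      refine this.congr_deriv ?_
      ring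
    exact ((line1 hf x v t).fun_sub e1).fun_add e2
  have hd2 : ∀ t, HasDerivAt (deriv ψ) (hess f (x + t • v) v v + 2 * ε) t := by
    intro t
    have e0 : deriv ψ = fun t => fderiv ℝ f (x + t • v) v - (T f r y - T f r x)
        + ε * (2 * t - 1) := by
      funext t
      exact (hd1 t).deriv
    rw [e0]
    have e2 : HasDerivAt (fun t : ℝ => ε * (2 * t - 1)) (2 * ε) t := by
      have := (((hasDerivAt_id' t).const_mul 2).sub_const 1).const_mul ε
      refine this.congr_deriv ?_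
      ring
    exact ((line2 hf x v t).sub_const _).fun_add e2
  have hψc : Continuous ψ := continuous_iff_continuousAt.mpr (fun t => (hd1 t).continuousAt)
  obtain ⟨t, ht, hmax⟩ := isCompact_Icc.exists_isMaxOn (nonempty_Icc.mpr zero_le_one)
    hψc.continuousOn
  have hψb : 0 < ψ b := by
    simp only [hψ]
    have h1 : b * (b - 1) ≥ -1 := by nlinarith
    have h2 : f (x + b • v) - L b = 2 * ε := by rw [hε]; ring
    rw [h2]
    nlinarith
  have hψt : 0 < ψ t := lt_of_lt_of_le hψb (hmax ⟨hb, hb1⟩)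
  have hψ0 : ψ 0 ≤ 0 := by
    simp only [hψ, hL]
    have : f x ≤ T f r x := le_max_right _ _
    simp
    linarith
  have hψ1 : ψ 1 ≤ 0 := by
    simp only [hψ, hL]
    have : f y ≤ T f r y := le_max_right _ _
    have e : x + (1:ℝ) • v = y := by rw [hv]; simp
    rw [e]
    simp
    linarith
  have ht0 : 0 < t := by
    rcases eq_or_lt_of_le ht.1 with h1 | h1
    · rw [← h1] at hψt; linarith
    · exact h1
  have ht1 : t < 1 := by
    rcases eq_or_lt_of_le ht.2 with h1 | h1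
    · rw [h1] at hψt; linarith
    · exact h1
  have hloc : IsLocalMax ψ t := hmax.isLocalMax (Icc_mem_nhds ht0 ht1)
  have hφt : r < f (x + t • v) := by
    have h1 := hLr t ht
    simp only [hψ] at hψt
    have h2 : ε * (t * (t - 1)) ≤ 0 := by
      apply mul_nonpos_of_nonneg_of_nonpos hε0.le
      nlinarith
    linarith
  have hpos : 0 < deriv (deriv ψ) t := by
    rw [(hd2 t).deriv]
    have := h _ hφt v
    linarith
  have hmin : IsLocalMin ψ t := isLocalMin_of_deriv_deriv_pos hpos hloc.deriv_eq_zero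
    hψc.continuousAt
  have hconst : ∀ᶠ s in 𝓝 t, ψ s = ψ t := by
    filter_upwards [hloc, hmin] with s h1 h2
    exact le_antisymm h1 h2
  rw [deriv2_of_eventually_const hconst] at hpos
  exact lt_irrefl _ hpos

/-- If a truncation is convex, the Hessian is positive semidefinite above the level. -/
lemma hess_nonneg (hf : ContDiff ℝ 2 f) {q : ℝ} (hc : ConvexOn ℝ univ (T f q)) {z : E n}
    (hz : q < f z) (v : E n) : 0 ≤ hess f z v v := by
  by_contra hcon
  push Not at hcon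
  set k : ℝ := fderiv ℝ f z v with hk
  set ψ : ℝ → ℝ := fun t => f (z + t • v) - t * k with hψ
  have hd1 : ∀ t, HasDerivAt ψ (fderiv ℝ f (z + t • v) v - k) t := by
    intro t
    have e1 : HasDerivAt (fun t : ℝ => t * k) k t := by
      have := (hasDerivAt_id' t).mul_const k
      refine this.congr_deriv ?_
      ring
    exact (line1 hf z v t).fun_sub e1
  have e0 : deriv ψ = fun t => fderiv ℝ f (z + t • v) v - k := by
    funext t
    exact (hd1 t).deriv
  have hd2 : HasDerivAt (deriv ψ) (hess f z v v) 0 := by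
    rw [e0]
    have := (line2 hf z v 0).sub_const k
    simpa using this
  have hψc : Continuous ψ := continuous_iff_continuousAt.mpr (fun t => (hd1 t).continuousAt)
  have hneg : deriv (deriv ψ) 0 < 0 := by rw [hd2.deriv]; exact hcon
  have hzero : deriv ψ 0 = 0 := by rw [e0]; simp [hk]
  have hmax : IsLocalMax ψ 0 := isLocalMax_of_deriv_deriv_neg hneg hzero hψc.continuousAt
  have hfc : Continuous fun t : ℝ => f (z + t • v) :=
    continuous_iff_continuousAt.mpr (fun t => (line1 hf z v t).continuousAt)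
  have hbig : ∀ᶠ t in 𝓝 (0:ℝ), q < f (z + t • v) := by
    have h1 : Tendsto (fun t : ℝ => f (z + t • v)) (𝓝 0) (𝓝 (f (z + (0:ℝ) • v))) :=
      hfc.tendsto 0
    have h2 : f (z + (0:ℝ) • v) = f z := by simp
    rw [h2] at h1
    exact h1.eventually (lt_mem_nhds hz)
  have hneg0 : Tendsto (fun t : ℝ => -t) (𝓝 0) (𝓝 0) := by
    have := (continuous_neg (G := ℝ)).tendsto 0
    simpa using this
  have hconst : ∀ᶠ t in 𝓝 (0:ℝ), ψ t = ψ 0 := by
    filter_upwards [hmax, hneg0.eventually hmax, hbig, hneg0.eventually hbig] with t h1 h2 h3 h4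
    have h5 := hc.2 (mem_univ (z + t • v)) (mem_univ (z + (-t) • v))
      (show (0:ℝ) ≤ 1 / 2 by norm_num) (show (0:ℝ) ≤ 1 / 2 by norm_num) (by norm_num)
    have h6 : (1 / 2 : ℝ) • (z + t • v) + (1 / 2 : ℝ) • (z + (-t) • v) = z := by module
    rw [h6] at h5
    unfold T at h5
    rw [max_eq_right hz.le, max_eq_right h3.le, max_eq_right h4.le] at h5
    simp only [smul_eq_mul] at h5
    have h7 : ψ 0 = f z := by simp [hψ]
    have h8 : ψ t = f (z + t • v) - t * k := rfl
    have h9 : ψ (-t) = f (z + (-t) • v) + t * k := by simp [hψ]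
    linarith
  rw [deriv2_of_eventually_const hconst] at hneg
  exact lt_irrefl _ hneg

end general

/-! ### The example -/

/-- The radial part as a function of `s`. -/
noncomputable def P (s : ℝ) : ℝ := s ^ 4 / 32 - 3 * s ^ 3 / 8 + 3 * s ^ 2 / 2

/-- Its derivative. -/
noncomputable def u (s : ℝ) : ℝ := (s ^ 3 - 9 * s ^ 2 + 24 * s) / 8

/-- Its second derivative. -/
noncomputable def u' (s : ℝ) : ℝ := 3 / 8 * (s ^ 2 - 6 * s + 8)

lemma hasDerivAt_P (s : ℝ) : HasDerivAt P (u s) s := by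
  have h1 := ((((hasDerivAt_id' s).fun_pow 4).div_const 32).fun_sub
    ((((hasDerivAt_id' s).fun_pow 3).const_mul 3).div_const 8)).fun_add
    ((((hasDerivAt_id' s).fun_pow 2).const_mul 3).div_const 2)
  unfold P u
  refine h1.congr_deriv ?_
  norm_num
  ring

lemma hasDerivAt_u (s : ℝ) : HasDerivAt u (u' s) s := by
  have h1 := ((((hasDerivAt_id' s).fun_pow 3).fun_sub
    (((hasDerivAt_id' s).fun_pow 2).const_mul 9)).fun_add
    ((hasDerivAt_id' s).const_mul 24)).div_const 8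
  unfold u u'
  refine h1.congr_deriv ?_
  norm_num
  ring

/-- The quadratic part. -/
noncomputable def qd (x : E 2) : ℝ := x 1 ^ 2 - x 0 ^ 2

/-- The function. -/
noncomputable def f (x : E 2) : ℝ := P (‖x‖ ^ 2) + qd x

/-- Coordinate functional. -/
noncomputable def pr (i : Fin 2) : E 2 →L[ℝ] ℝ := EuclideanSpace.proj i

lemma pr_apply (i : Fin 2) (x : E 2) : pr i x = x i := rfl

lemma hasFDerivAt_qd (x : E 2) : HasFDerivAt qd ((2 * x 1) • pr 1 - (2 * x 0) • pr 0) x := by
  have h1 : HasFDerivAt (fun x : E 2 => (pr 1 x) ^ 2) ((2 * x 1) • pr 1) x := by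
    have := ((pr 1).hasFDerivAt (x := x)).pow 2
    refine this.congr_fderiv ?_
    ext z
    simp [pr_apply]
  have h0 : HasFDerivAt (fun x : E 2 => (pr 0 x) ^ 2) ((2 * x 0) • pr 0) x := by
    have := ((pr 0).hasFDerivAt (x := x)).pow 2
    refine this.congr_fderiv ?_
    ext z
    simp [pr_apply]
  exact h1.fun_sub h0

lemma norm_sq2 (x : E 2) : ‖x‖ ^ 2 = x 0 ^ 2 + x 1 ^ 2 := by
  rw [EuclideanSpace.real_norm_sq_eq, Fin.sum_univ_two]

lemma inner2 (x y : E 2) : (inner ℝ x y : ℝ) = x 0 * y 0 + x 1 * y 1 := by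
  simp [PiLp.inner_apply, Fin.sum_univ_two, mul_comm]

lemma hasFDerivAt_f (x : E 2) :
    HasFDerivAt f ((2 * u (‖x‖ ^ 2)) • (innerSL ℝ x) + ((2 * x 1) • pr 1 - (2 * x 0) • pr 0)) x := by
  have h1 := (hasStrictFDerivAt_norm_sq x).hasFDerivAt
  have h2 := (hasDerivAt_P (‖x‖ ^ 2)).comp_hasFDerivAt x h1
  have h3 := h2.fun_add (hasFDerivAt_qd x)
  refine h3.congr_fderiv ?_
  ext z
  simp
  ring

lemma fderiv_f : fderiv ℝ f = fun x => (2 * u (‖x‖ ^ 2)) • (innerSL ℝ x)
    + ((2 * x 1) • pr 1 - (2 * x 0) • pr 0) := by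
  funext x
  exact (hasFDerivAt_f x).fderiv

lemma hess_f (x v w : E 2) : hess f x v w = 2 * u (‖x‖ ^ 2) * (v 0 * w 0 + v 1 * w 1)
    + 4 * u' (‖x‖ ^ 2) * (x 0 * v 0 + x 1 * v 1) * (x 0 * w 0 + x 1 * w 1)
    + 2 * (v 1 * w 1 - v 0 * w 0) := by
  unfold hess
  rw [fderiv_f]
  have h1 := (hasStrictFDerivAt_norm_sq x).hasFDerivAt
  have h2 := ((hasDerivAt_u (‖x‖ ^ 2)).comp_hasFDerivAt x h1).const_mul 2
  have h3 : HasFDerivAt (fun x : E 2 => (innerSL ℝ x : E 2 →L[ℝ] ℝ))
      (innerSL ℝ : E 2 →L[ℝ] E 2 →L[ℝ] ℝ) x := (innerSL ℝ).hasFDerivAt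
  have h4 := h2.fun_smul h3
  have h5 : HasFDerivAt (fun x : E 2 => (2 * x 1) • pr 1)
      (((2:ℝ) • pr 1).smulRight (pr 1)) x :=
    (((pr 1).hasFDerivAt (x := x)).const_mul 2).smul_const (pr 1)
  have h6 : HasFDerivAt (fun x : E 2 => (2 * x 0) • pr 0)
      (((2:ℝ) • pr 0).smulRight (pr 0)) x :=
    (((pr 0).hasFDerivAt (x := x)).const_mul 2).smul_const (pr 0)
  have h7 := (h4.fun_add (h5.fun_sub h6)).fderiv
  have e2 : ((innerSL ℝ : E 2 →L[ℝ] E 2 →L[ℝ] ℝ) v) w = inner ℝ v w := rfl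
  have e : (fun x : E 2 => (2 * u (‖x‖ ^ 2)) • (innerSL ℝ x)
      + ((2 * x 1) • pr 1 - (2 * x 0) • pr 0))
      = fun x : E 2 => (2 * (u ∘ fun x => ‖x‖ ^ 2) x) • (innerSL ℝ x)
        + ((2 * x 1) • pr 1 - (2 * x 0) • pr 0) := rfl
  rw [e, h7]
  simp [pr_apply]
  rw [e2, inner2, inner2, inner2]
  ring

lemma smooth_f : ContDiff ℝ 2 f := by
  have h1 : ContDiff ℝ 2 (fun x : E 2 => ‖x‖ ^ 2) := contDiff_norm_sq ℝ
  have h2 : ContDiff ℝ 2 P := by unfold P; fun_prop
  have h3 : ContDiff ℝ 2 qd := by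
    have e : qd = fun x => (pr 1 x) ^ 2 - (pr 0 x) ^ 2 := rfl
    rw [e]
    exact ((pr 1).contDiff.pow 2).sub ((pr 0).contDiff.pow 2)
  exact (h2.comp h1).add h3

/-! ### Sign of the Hessian -/

/-- A quarter of the determinant. -/
noncomputable def Dt (x : E 2) : ℝ := u (‖x‖ ^ 2) ^ 2 - 1
  + 2 * u' (‖x‖ ^ 2) * (‖x‖ ^ 2 * u (‖x‖ ^ 2) + (x 0 ^ 2 - x 1 ^ 2))

/-- Entries of the Hessian. -/
noncomputable def ea (x : E 2) : ℝ := 2 * (u (‖x‖ ^ 2) - 1) + 4 * x 0 ^ 2 * u' (‖x‖ ^ 2)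

/-- Off-diagonal entry. -/
noncomputable def eb (x : E 2) : ℝ := 4 * x 0 * x 1 * u' (‖x‖ ^ 2)

/-- Second diagonal entry. -/
noncomputable def ec (x : E 2) : ℝ := 2 * (u (‖x‖ ^ 2) + 1) + 4 * x 1 ^ 2 * u' (‖x‖ ^ 2)

lemma hess_entries (x v : E 2) :
    hess f x v v = ea x * v 0 ^ 2 + 2 * eb x * (v 0 * v 1) + ec x * v 1 ^ 2 := by
  rw [hess_f]
  unfold ea eb ec
  ring

lemma det_eq (x : E 2) : ea x * ec x - eb x ^ 2 = 4 * Dt x := by
  unfold ea eb ec Dt
  rw [norm_sq2]
  ring

lemma trace_pos (x : E 2) (hx : x ≠ 0) : 0 < ea x + ec x := by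
  have h1 : ea x + ec x = 4 * (u (‖x‖ ^ 2) + ‖x‖ ^ 2 * u' (‖x‖ ^ 2)) := by
    unfold ea ec
    linear_combination (-4 * u' (‖x‖ ^ 2)) * norm_sq2 x
  rw [h1]
  set s := ‖x‖ ^ 2
  have hs : 0 < s := by
    have := norm_pos_iff.mpr hx
    positivity
  have h2 : u s + s * u' s = s / 8 * (4 * s ^ 2 - 27 * s + 48) := by
    unfold u u'; ring
  rw [h2]
  have h3 : 0 < 4 * s ^ 2 - 27 * s + 48 := by nlinarith [sq_nonneg (s - 27 / 8)]
  positivity

lemma hessPos_of_pos (x : E 2) (hx : x ≠ 0) (hD : 0 < Dt x) : x ∈ HessPos f := by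
  intro v hv
  rw [hess_entries]
  have h1 := det_eq x
  have h2 := trace_pos x hx
  have hac : 0 < ea x * ec x := by nlinarith [sq_nonneg (eb x)]
  have ha : 0 < ea x := by
    by_contra hcon
    push Not at hcon
    have : 0 < ec x := by linarith
    nlinarith [mul_nonneg (neg_nonneg.mpr hcon) this.le]
  have h3 : 0 < ea x * (ea x * v 0 ^ 2 + 2 * eb x * (v 0 * v 1) + ec x * v 1 ^ 2) := by
    have e : ea x * (ea x * v 0 ^ 2 + 2 * eb x * (v 0 * v 1) + ec x * v 1 ^ 2)
        = (ea x * v 0 + eb x * v 1) ^ 2 + 4 * Dt x * v 1 ^ 2 := by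
      rw [← h1]; ring
    rw [e]
    by_cases h4 : v 1 = 0
    · have h5 : v 0 ≠ 0 := by
        intro h5
        apply hv
        ext i
        fin_cases i
        · exact h5
        · exact h4
      rw [h4]
      have : 0 < (ea x * v 0 + eb x * 0) ^ 2 := by
        have : ea x * v 0 + eb x * 0 ≠ 0 := by
          simp [ha.ne', h5]
        positivity
      linarith
    · have : 0 < 4 * Dt x * v 1 ^ 2 := by positivity
      nlinarith [sq_nonneg (ea x * v 0 + eb x * v 1)]
  exact (mul_pos_iff_of_pos_left ha).mp h3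

/-- Points with a direction of negative second derivative. -/
def NN : Set (E 2) := {x | ∃ v, hess f x v v < 0}

lemma mem_NN_of_neg (x : E 2) (hx : x ≠ 0) (hD : Dt x < 0) : x ∈ NN := by
  have h1 := det_eq x
  have h2 := trace_pos x hx
  rcases lt_or_ge 0 (ea x) with ha | ha
  · refine ⟨!₂[-eb x, ea x], ?_⟩
    rw [hess_entries]
    simp
    have e : ea x * eb x ^ 2 + -(2 * eb x * (eb x * ea x)) + ec x * ea x ^ 2
        = ea x * (4 * Dt x) := by
      rw [← h1]; ring
    rw [e]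
    nlinarith
  · have hc : 0 < ec x := by linarith
    refine ⟨!₂[ec x, -eb x], ?_⟩
    rw [hess_entries]
    simp
    have e : ea x * ec x ^ 2 + -(2 * eb x * (ec x * eb x)) + ec x * eb x ^ 2
        = ec x * (4 * Dt x) := by
      rw [← h1]; ring
    rw [e]
    nlinarith

lemma u_nonneg {s : ℝ} (hs : 0 ≤ s) : 0 ≤ u s := by
  have : u s = s * (s ^ 2 - 9 * s + 24) / 8 := by unfold u; ring
  rw [this]
  have h3 : 0 < s ^ 2 - 9 * s + 24 := by nlinarith [sq_nonneg (s - 9 / 2)]
  positivity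

lemma u_gt_one {s : ℝ} (hs : 1 ≤ s) : 1 < u s := by
  have : u s = ((s - 4) ^ 2 * (s - 1) + 16) / 8 := by unfold u; ring
  rw [this]
  have : 0 ≤ (s - 4) ^ 2 * (s - 1) := by
    apply mul_nonneg (sq_nonneg _); linarith
  linarith

lemma P_mono {s t : ℝ} (hs : 0 ≤ s) (hst : s ≤ t) : P s ≤ P t := by
  have hmono : MonotoneOn P (Ici 0) := by
    apply monotoneOn_of_deriv_nonneg (convex_Ici 0)
    · have : Continuous P := by unfold P; fun_prop
      exact this.continuousOn
    · exact fun x _ => (hasDerivAt_P x).differentiableAt.differentiableWithinAt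
    · intro x hx
      rw [interior_Ici, mem_Ioi] at hx
      rw [(hasDerivAt_P x).deriv]
      exact u_nonneg hx.le
  exact hmono hs (hs.trans hst) hst

lemma f_eq (x : E 2) : f x = P (‖x‖ ^ 2) - (x 0 ^ 2 - x 1 ^ 2) := by
  unfold f qd; ring

lemma f_le (x : E 2) : f x ≤ P (‖x‖ ^ 2) + ‖x‖ ^ 2 := by
  rw [f_eq, norm_sq2]
  nlinarith [sq_nonneg (x 0), sq_nonneg (x 1)]

/-- Outside the closed disc of radius two the determinant is positive. -/
lemma Dt_pos_of_large (x : E 2) (h : 4 ≤ ‖x‖ ^ 2) : 0 < Dt x := by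
  unfold Dt
  have h1 := u_gt_one (show (1:ℝ) ≤ ‖x‖ ^ 2 by linarith)
  have h2 : 0 ≤ u' (‖x‖ ^ 2) := by unfold u'; nlinarith
  have h3 : 0 ≤ ‖x‖ ^ 2 * u (‖x‖ ^ 2) + (x 0 ^ 2 - x 1 ^ 2) := by
    have : ‖x‖ ^ 2 ≤ ‖x‖ ^ 2 * u (‖x‖ ^ 2) := by nlinarith
    have h4 := norm_sq2 x
    nlinarith [sq_nonneg (x 0)]
  have h5 : 0 ≤ 2 * u' (‖x‖ ^ 2) * (‖x‖ ^ 2 * u (‖x‖ ^ 2) + (x 0 ^ 2 - x 1 ^ 2)) := by positivity
  nlinarith

lemma Dt_pos_of_mid (x : E 2) (h : 1 ≤ ‖x‖ ^ 2) (h' : ‖x‖ ^ 2 ≤ 2) : 0 < Dt x := by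
  unfold Dt
  have h1 := u_gt_one h
  have h2 : 0 ≤ u' (‖x‖ ^ 2) := by unfold u'; nlinarith
  have h3 : 0 ≤ ‖x‖ ^ 2 * u (‖x‖ ^ 2) + (x 0 ^ 2 - x 1 ^ 2) := by
    have : ‖x‖ ^ 2 ≤ ‖x‖ ^ 2 * u (‖x‖ ^ 2) := by nlinarith
    have h4 := norm_sq2 x
    nlinarith [sq_nonneg (x 0)]
  have h5 : 0 ≤ 2 * u' (‖x‖ ^ 2) * (‖x‖ ^ 2 * u (‖x‖ ^ 2) + (x 0 ^ 2 - x 1 ^ 2)) := by positivity
  nlinarith

lemma NN_sub (x : E 2) (hx : x ∈ NN) : ‖x‖ ^ 2 < 4 := by
  by_contra hcon
  push Not at hcon
  obtain ⟨v, hv⟩ := hx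
  have hx0 : x ≠ 0 := by
    rintro rfl
    simp at hcon
    linarith
  have h1 := hessPos_of_pos x hx0 (Dt_pos_of_large x hcon)
  by_cases hv0 : v = 0
  · rw [hv0, hess_f] at hv
    simp at hv
  · linarith [h1 v hv0]

/-- An explicit point with negative determinant. -/
noncomputable def z0 : E 2 := !₂[1, Real.sqrt 2]

lemma norm_z0 : ‖z0‖ ^ 2 = 3 := by
  rw [norm_sq2]
  simp [z0]
  norm_num

lemma z0_mem : z0 ∈ NN := by
  have h0 : z0 ≠ 0 := by
    intro h
    have := norm_z0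
    rw [h] at this
    simp at this
  apply mem_NN_of_neg z0 h0
  unfold Dt
  rw [norm_z0]
  simp [z0, u, u']
  norm_num

lemma f_z0 : f z0 = 221 / 32 := by
  rw [f_eq, norm_z0]
  simp [z0, P]
  norm_num

lemma bdd_NN : BddAbove (f '' NN) := by
  refine ⟨P 4 + 4, ?_⟩
  rintro _ ⟨x, hx, rfl⟩
  have h1 := NN_sub x hx
  have h2 := P_mono (sq_nonneg ‖x‖) h1.le
  linarith [f_le x]

/-- The smallest convexity level. -/
noncomputable def c : ℝ := sSup (f '' NN)

lemma f_le_c (x : E 2) (hx : x ∈ NN) : f x ≤ c := le_csSup bdd_NN ⟨x, hx, rfl⟩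

lemma c_ge : 221 / 32 ≤ c := by
  rw [← f_z0]
  exact f_le_c z0 z0_mem

lemma isLeast_levels : IsLeast (levels f) c := by
  constructor
  · refine ⟨?_, ?_⟩
    · refine (iInf_le _ (0 : E 2)).trans ?_
      rw [EReal.coe_le_coe_iff]
      have : f 0 = 0 := by simp [f, P, qd]
      rw [this]
      linarith [c_ge]
    · intro r hr
      apply convex_T smooth_f
      intro x hx v
      by_contra hcon
      push Not at hcon
      have := f_le_c x ⟨v, hcon⟩
      linarith
  · rintro q ⟨_, hq⟩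
    by_contra hcon
    push Not at hcon
    obtain ⟨_, ⟨x, hx, rfl⟩, hqx⟩ := exists_lt_of_lt_csSup
      (⟨f z0, z0, z0_mem, rfl⟩ : (f '' NN).Nonempty) hcon
    obtain ⟨v, hv⟩ := hx
    have := hess_nonneg smooth_f (hq q le_rfl) hqx v
    linarith

/-- Above the level `c` the Hessian is positive definite. -/
lemma above_c (x : E 2) (hx : c < f x) : x ∈ HessPos f := by
  have hc := c_ge
  have hx0 : x ≠ 0 := by
    rintro rfl
    have : f 0 = 0 := by simp [f, P, qd]
    rw [this] at hx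
    linarith
  have hs1 : 1 < ‖x‖ ^ 2 := by
    by_contra hcon
    push Not at hcon
    have h1 := P_mono (sq_nonneg ‖x‖) hcon
    have h2 : P 1 = 37 / 32 := by unfold P; norm_num
    linarith [f_le x]
  rcases lt_trichotomy (Dt x) 0 with hD | hD | hD
  · exact absurd (f_le_c x (mem_NN_of_neg x hx0 hD)) (not_le.mpr hx)
  · exfalso
    have h2 : 2 < ‖x‖ ^ 2 := by
      by_contra hcon
      push Not at hcon
      linarith [Dt_pos_of_mid x hs1.le hcon]
    have h4 : ‖x‖ ^ 2 < 4 := by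
      by_contra hcon
      push Not at hcon
      linarith [Dt_pos_of_large x hcon]
    have hu' : u' (‖x‖ ^ 2) < 0 := by unfold u'; nlinarith
    by_cases hy : x 1 = 0
    · have h5 : f x = P (‖x‖ ^ 2) - ‖x‖ ^ 2 := by
        rw [f_eq, norm_sq2, hy]; ring
      have h6 := P_mono (sq_nonneg ‖x‖) h4.le
      have h7 : P 4 = 8 := by unfold P; norm_num
      linarith
    · -- rotate towards the first axis
      have hy2 : 0 < x 1 ^ 2 := by positivity
      set t : ℝ := min 1 ((f x - c) / (4 * x 1 ^ 2)) with ht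
      have ht0 : 0 < t := by
        rw [ht]
        apply lt_min one_pos
        apply div_pos (by linarith) (by positivity)
      have ht1 : t ≤ 1 := min_le_left _ _
      have ht2 : t * (4 * x 1 ^ 2) ≤ f x - c := by
        have : t ≤ (f x - c) / (4 * x 1 ^ 2) := min_le_right _ _
        rwa [le_div_iff₀ (by positivity)] at this
      set z : E 2 := !₂[Real.sqrt (x 0 ^ 2 + t * x 1 ^ 2), Real.sqrt ((1 - t) * x 1 ^ 2)] with hz
      have hz0 : z 0 ^ 2 = x 0 ^ 2 + t * x 1 ^ 2 := by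
        simp [hz]
        exact Real.sq_sqrt (by positivity)
      have hz1 : z 1 ^ 2 = (1 - t) * x 1 ^ 2 := by
        have h8 : 0 ≤ (1 - t) * x 1 ^ 2 := mul_nonneg (by linarith) hy2.le
        have h9 : z 1 = Real.sqrt ((1 - t) * x 1 ^ 2) := by simp [hz]
        rw [h9]
        exact Real.sq_sqrt h8
      have hzn : ‖z‖ ^ 2 = ‖x‖ ^ 2 := by
        rw [norm_sq2, norm_sq2, hz0, hz1]; ring
      have hzne : z ≠ 0 := by
        intro h0
        rw [h0] at hzn
        simp at hzn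
        rw [← hzn] at hs1
        norm_num at hs1
      have hDz : Dt z < 0 := by
        have h8 : Dt z = Dt x + 2 * u' (‖x‖ ^ 2) * (2 * t * x 1 ^ 2) := by
          unfold Dt
          rw [hzn, hz0, hz1]
          ring
        rw [h8, hD]
        have : 0 < 2 * t * x 1 ^ 2 := by positivity
        nlinarith
      have h10 := f_le_c z (mem_NN_of_neg z hzne hDz)
      have h11 : f z = f x - 2 * t * x 1 ^ 2 := by
        rw [f_eq, f_eq, hzn, hz0, hz1]; ring
      rw [h11] at h10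
      nlinarith
  · exact hessPos_of_pos x hx0 hD

lemma gradient_f (x : E 2) : gradient f x
    = !₂[2 * x 0 * (u (‖x‖ ^ 2) - 1), 2 * x 1 * (u (‖x‖ ^ 2) + 1)] := by
  have h1 : HasGradientAt f !₂[2 * x 0 * (u (‖x‖ ^ 2) - 1), 2 * x 1 * (u (‖x‖ ^ 2) + 1)] x := by
    rw [hasGradientAt_iff_hasFDerivAt]
    refine (hasFDerivAt_f x).congr_fderiv ?_
    ext z
    rw [InnerProductSpace.toDual_apply_apply, inner2]
    simp [pr_apply]
    rw [inner2]
    ring
  exact h1.gradient

lemma crit_iff (x : E 2) : x ∈ Crit f ↔ x = 0 ∨ (x 1 = 0 ∧ u (‖x‖ ^ 2) = 1) := by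
  unfold Crit
  rw [mem_ofPred_eq, gradient_f]
  have hu := u_nonneg (sq_nonneg ‖x‖)
  constructor
  · intro h
    have h0 : 2 * x 0 * (u (‖x‖ ^ 2) - 1) = 0 := by
      have := congrArg (fun y : E 2 => y 0) h
      simpa using this
    have h1 : 2 * x 1 * (u (‖x‖ ^ 2) + 1) = 0 := by
      have := congrArg (fun y : E 2 => y 1) h
      simpa using this
    have hx1 : x 1 = 0 := by
      rcases mul_eq_zero.mp h1 with h2 | h2
      · linarith
      · linarith
    rcases mul_eq_zero.mp h0 with h2 | h2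
    · left
      ext i
      fin_cases i
      · simp; linarith
      · simpa using hx1
    · right
      exact ⟨hx1, by linarith⟩
  · rintro (rfl | ⟨h1, h2⟩)
    · ext i
      fin_cases i <;> simp
    · rw [h2, h1]
      ext i
      fin_cases i <;> simp

lemma crit_small (x : E 2) (hx : x ∈ Crit f) : ‖x‖ ^ 2 < 1 := by
  rcases (crit_iff x).mp hx with rfl | ⟨_, h⟩
  · simp
  · by_contra hcon
    push Not at hcon
    linarith [u_gt_one hcon]

lemma morse_f : IsMorse f := by
  intro x hx v hv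
  have hs := crit_small x hx
  have hw0 := hv !₂[1, 0]
  have hw1 := hv !₂[0, 1]
  rw [hess_f] at hw0 hw1
  simp at hw0 hw1
  rcases (crit_iff x).mp hx with rfl | ⟨h1, h2⟩
  · simp [u] at hw0 hw1
    ext i
    fin_cases i
    · simpa using hw0
    · simpa using hw1
  · rw [h1, h2] at hw0 hw1
    have hx0 : x 0 ≠ 0 := by
      intro h0
      rw [norm_sq2, h1, h0] at h2
      simp [u] at h2
    have hu' : 0 < u' (‖x‖ ^ 2) := by unfold u'; nlinarith
    have hv1 : v 1 = 0 := by nlinarith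
    have hv0 : v 0 = 0 := by
      have h3 : u' (‖x‖ ^ 2) * (x 0 * x 0) * v 0 = 0 := by nlinarith
      have h4 : u' (‖x‖ ^ 2) * (x 0 * x 0) ≠ 0 := by positivity
      exact (mul_eq_zero.mp h3).resolve_left h4
    ext i
    fin_cases i
    · exact hv0
    · exact hv1

lemma hypH_f : HypH f c := by
  refine ⟨smooth_f, ?_, ⟨_, isLeast_levels.1⟩, morse_f, ?_, ?_, isLeast_levels.isGLB, ?_, ?_,
    above_c⟩
  · intro hc
    obtain ⟨v, hv⟩ := z0_mem
    have h1 : ConvexOn ℝ univ (T f 0) := (convexOn_const 0 convex_univ).sup hc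
    have h2 := hess_nonneg smooth_f h1 (z := z0) (by rw [f_z0]; norm_num) v
    linarith
  · apply (Metric.isBounded_closedBall (x := (0 : E 2)) (r := 1)).subset
    intro x hx
    rw [Metric.mem_closedBall, dist_zero_right]
    have := crit_small x hx
    nlinarith [norm_nonneg x]
  · apply (Metric.isBounded_closedBall (x := (0 : E 2)) (r := 2)).subset
    intro x hx
    rw [Metric.mem_closedBall, dist_zero_right]
    by_contra hcon
    push Not at hcon
    apply hx
    apply hessPos_of_pos x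
    · rintro rfl
      simp at hcon
      linarith
    · exact Dt_pos_of_large x (by nlinarith)
  · have hc : Continuous f := smooth_f.continuous
    have h0 : f 0 ≤ c := by
      have : f 0 = 0 := by simp [f, P, qd]
      rw [this]
      linarith [c_ge]
    have h1 : c ≤ f (!₂[0, c] : E 2) := by
      have hn : ‖(!₂[0, c] : E 2)‖ ^ 2 = c ^ 2 := by
        rw [norm_sq2]; simp
      rw [f_eq, hn]
      simp
      have h2 : P (c ^ 2) = (c ^ 2) ^ 2 * ((c ^ 2 - 6) ^ 2 + 12) / 32 := by unfold P; ring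
      rw [h2]
      have := c_ge
      have h3 : 0 ≤ (c ^ 2) ^ 2 * ((c ^ 2 - 6) ^ 2 + 12) / 32 := by positivity
      nlinarith
    exact mem_range_of_exists_le_of_exists_ge hc ⟨0, h0⟩ ⟨_, h1⟩
  · intro x hx hcrit
    have h1 := crit_small x hcrit
    have h2 := P_mono (sq_nonneg ‖x‖) h1.le
    have h3 : P 1 = 37 / 32 := by unfold P; norm_num
    linarith [f_le x, c_ge]

/-! ### The connected set -/

lemma exists_root : ∃ a : ℝ, 0 < a ∧ a < 1 ∧ u (a ^ 2) = 1 := by
  have hc : Continuous fun a : ℝ => u (a ^ 2) := by unfold u; fun_prop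
  have h : (1:ℝ) ∈ (fun a : ℝ => u (a ^ 2)) '' Icc 0 1 := by
    apply intermediate_value_Icc zero_le_one hc.continuousOn
    constructor <;> simp [u] <;> norm_num
  obtain ⟨a, ⟨ha0, ha1⟩, ha⟩ := h
  have ha' : u (a ^ 2) = 1 := ha
  refine ⟨a, ?_, ?_, ha'⟩
  · rcases eq_or_lt_of_le ha0 with h | h
    · rw [← h] at ha'
      simp [u] at ha'
    · exact h
  · rcases eq_or_lt_of_le ha1 with h | h
    · rw [h] at ha'
      have := u_gt_one (show (1:ℝ) ≤ 1 ^ 2 by norm_num)
      linarith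
    · exact h

lemma mem_R_of (x : E 2) (hx0 : x ≠ 0) (hD : 0 < Dt x) (hs : ‖x‖ ^ 2 ≤ 1) : x ∈ R f c := by
  refine ⟨hessPos_of_pos x hx0 hD, ?_⟩
  intro hcx
  have hcx' : c < f x := hcx
  have h2 := P_mono (sq_nonneg ‖x‖) hs
  have h3 : P 1 = 37 / 32 := by unfold P; norm_num
  linarith [f_le x, c_ge]

lemma axis_mem (a : ℝ) (ha0 : 0 < a) (ha : u (a ^ 2) = 1) (x : E 2) (hx1 : x 1 = 0)
    (h1 : a ^ 2 ≤ x 0 ^ 2) (h2 : x 0 ^ 2 ≤ 1) : x ∈ R f c := by
  have hn : ‖x‖ ^ 2 = x 0 ^ 2 := by rw [norm_sq2, hx1]; ring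
  have ha2 : 0 < a ^ 2 := by positivity
  have hx0 : x ≠ 0 := by
    rintro rfl
    simp at h1
    linarith
  apply mem_R_of x hx0 _ (by rw [hn]; exact h2)
  unfold Dt
  rw [hn, hx1]
  set s := x 0 ^ 2 with hs
  have hs0 : 0 < s := by linarith
  have hu1 : 1 ≤ u s := by
    have h3 : u s - u (a ^ 2) = (s - a ^ 2)
        * (s ^ 2 + s * a ^ 2 + (a ^ 2) ^ 2 - 9 * (s + a ^ 2) + 24) / 8 := by
      unfold u; ring
    have h4 : 0 ≤ s ^ 2 + s * a ^ 2 + (a ^ 2) ^ 2 - 9 * (s + a ^ 2) + 24 := by nlinarith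
    have h5 : 0 ≤ (s - a ^ 2) * (s ^ 2 + s * a ^ 2 + (a ^ 2) ^ 2 - 9 * (s + a ^ 2) + 24) / 8 := by
      apply div_nonneg _ (by norm_num)
      exact mul_nonneg (by linarith) h4
    linarith
  have hu' : 0 < u' s := by unfold u'; nlinarith
  have e : u s ^ 2 - 1 + 2 * u' s * (s * u s + (s - 0 ^ 2))
      = (u s + 1) * (u s - 1 + 2 * s * u' s) := by ring
  rw [e]
  have : 0 < 2 * s * u' s := by positivity
  apply mul_pos <;> linarith

lemma circle_mem (x : E 2) (hx : ‖x‖ = 1) : x ∈ R f c := by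
  have hn : ‖x‖ ^ 2 = 1 := by rw [hx]; norm_num
  have hx0 : x ≠ 0 := by
    rintro rfl
    simp at hx
  exact mem_R_of x hx0 (Dt_pos_of_mid x (by rw [hn]) (by rw [hn]; norm_num)) hn.le

/-- **There are a function satisfying (H), a connected component of `R(f)` and two distinct points
in it with the same gradient.** -/
theorem result : ∃ (n : ℕ) (f : E n → ℝ) (c : ℝ), 1 ≤ n ∧ HypH f c ∧
    ∃ x ∈ R f c, ∃ y ∈ connectedComponentIn (R f c) x, x ≠ y ∧ gradient f x = gradient f y := by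
  refine ⟨2, f, c, by norm_num, hypH_f, ?_⟩
  obtain ⟨a, ha0, ha1, ha⟩ := exists_root
  have ha2 : a ^ 2 ≤ 1 := by nlinarith
  set x : E 2 := !₂[a, 0] with hx
  set y : E 2 := !₂[-a, 0] with hy
  have hx0 : x 0 = a := by simp [hx]
  have hx1 : x 1 = 0 := by simp [hx]
  have hy0 : y 0 = -a := by simp [hy]
  have hy1 : y 1 = 0 := by simp [hy]
  have hxR : x ∈ R f c := axis_mem a ha0 ha x hx1 (by rw [hx0]) (by rw [hx0]; exact ha2)
  refine ⟨x, hxR, y, ?_, ?_, ?_⟩
  · -- the connected set: right segment, circle, left segment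
    set S1 : Set (E 2) := segment ℝ x !₂[1, 0] with hS1
    set S2 : Set (E 2) := segment ℝ y !₂[-1, 0] with hS2
    set C : Set (E 2) := Metric.sphere (0 : E 2) 1 with hC
    have hne : ‖(!₂[1, 0] : E 2)‖ = 1 := by
      have h1 : ‖(!₂[1, 0] : E 2)‖ ^ 2 = 1 := by rw [norm_sq2]; simp
      nlinarith [norm_nonneg (!₂[1, 0] : E 2)]
    have hne' : ‖(!₂[-1, 0] : E 2)‖ = 1 := by
      have h1 : ‖(!₂[-1, 0] : E 2)‖ ^ 2 = 1 := by rw [norm_sq2]; simp
      nlinarith [norm_nonneg (!₂[-1, 0] : E 2)]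
    have hCpre : IsPreconnected C := by
      apply isPreconnected_sphere
      rw [← Module.finrank_eq_rank]
      simp
    have h1 : IsPreconnected (S1 ∪ C) :=
      (convex_segment x !₂[1, 0]).isPreconnected.union !₂[1, 0] (right_mem_segment ℝ _ _)
        (by rw [hC, mem_sphere_zero_iff_norm]; exact hne) hCpre
    have h2 : IsPreconnected ((S1 ∪ C) ∪ S2) :=
      h1.union !₂[-1, 0] (Or.inr (by rw [hC, mem_sphere_zero_iff_norm]; exact hne'))
        (right_mem_segment ℝ _ _) (convex_segment y !₂[-1, 0]).isPreconnected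
    have hsub : (S1 ∪ C) ∪ S2 ⊆ R f c := by
      rintro z ((hz | hz) | hz)
      · obtain ⟨p, q, hp, hq, hpq, rfl⟩ := hz
        have e0 : (p • x + q • (!₂[1, 0] : E 2)) 0 = p * a + q := by
          simp [hx0]
        have e1 : (p • x + q • (!₂[1, 0] : E 2)) 1 = 0 := by
          simp [hx1]
        apply axis_mem a ha0 ha _ e1
        · rw [e0]
          have : a ≤ p * a + q := by nlinarith
          nlinarith
        · rw [e0]
          have h3 : p * a + q ≤ 1 := by nlinarith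
          have h4 : 0 ≤ p * a + q := by positivity
          nlinarith
      · rw [hC, mem_sphere_zero_iff_norm] at hz
        exact circle_mem z hz
      · obtain ⟨p, q, hp, hq, hpq, rfl⟩ := hz
        have e0 : (p • y + q • (!₂[-1, 0] : E 2)) 0 = -(p * a + q) := by
          simp [hy0]
          ring
        have e1 : (p • y + q • (!₂[-1, 0] : E 2)) 1 = 0 := by
          simp [hy1]
        apply axis_mem a ha0 ha _ e1
        · rw [e0, neg_sq]
          have : a ≤ p * a + q := by nlinarith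
          nlinarith
        · rw [e0, neg_sq]
          have h3 : p * a + q ≤ 1 := by nlinarith
          have h4 : 0 ≤ p * a + q := by positivity
          nlinarith
    exact h2.subset_connectedComponentIn (Or.inl (Or.inl (left_mem_segment ℝ _ _))) hsub
      (Or.inr (left_mem_segment ℝ _ _))
  · intro h
    have : x 0 = y 0 := by rw [h]
    rw [hx0, hy0] at this
    linarith
  · have hnx : ‖x‖ ^ 2 = a ^ 2 := by rw [norm_sq2, hx0, hx1]; ring
    have hny : ‖y‖ ^ 2 = a ^ 2 := by rw [norm_sq2, hy0, hy1]; ring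
    rw [gradient_f, gradient_f, hnx, hny, ha, hx1, hy1]
    simp

end Pool.Agent.Results.MP_5c9c6a_an.NonInjectiveComponent
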